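import Pool.Agent.W633.LT.BC

/-!
# LG-WVAL, part 1: coefficients of the elements of the coordinate rings of `P^1 x P^1`
-/

set_option autoImplicit false

namespace Pool.Agent.W410.LG

open W633.LT

section

variable {k : Type} [Field k] {b c : SignType}

/-- the embedding into the ring of Laurent polynomials -/
noncomputable def tot (k : Type) [Field k] (b c : SignType) :
    TorRing k b c →+* AddMonoidAlgebra k (ℤ × ℤ) :=
  AddMonoidAlgebra.mapDomainRingHom k (Tor b c).subtype

theorem tot_injective : Function.Injective (tot k b c) :=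
  AddMonoidAlgebra.mapDomain_injective Subtype.val_injective

/-- the coefficients -/
noncomputable def co (f : TorRing k b c) (p : ℤ × ℤ) : k := (tot k b c f).coeff p

theorem co_ext {f g : TorRing k b c} (h : ∀ p, co f p = co g p) : f = g := by
  apply tot_injective
  apply AddMonoidAlgebra.ext
  exact Finsupp.ext h

theorem co_add (f g : TorRing k b c) (p : ℤ × ℤ) : co (f + g) p = co f p + co g p := by
  unfold co
  rw [map_add, AddMonoidAlgebra.coeff_add, Finsupp.add_apply]

theorem co_zero (p : ℤ × ℤ) : co (0 : TorRing k b c) p = 0 := by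
  unfold co
  rw [map_zero, AddMonoidAlgebra.coeff_zero, Finsupp.zero_apply]

theorem co_neg (f : TorRing k b c) (p : ℤ × ℤ) : co (-f) p = -co f p := by
  have h := co_add f (-f) p
  rw [add_neg_cancel, co_zero] at h
  exact (neg_eq_of_add_eq_zero_right h.symm).symm

theorem co_sub (f g : TorRing k b c) (p : ℤ × ℤ) : co (f - g) p = co f p - co g p := by
  rw [sub_eq_add_neg, co_add, co_neg, sub_eq_add_neg]

theorem tot_chi {m : ℤ × ℤ} (hm : m ∈ Tor b c) :
    tot k b c (chi k b c m) = AddMonoidAlgebra.single m 1 := by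
  rw [chi_of_mem hm]
  unfold tot
  rw [AddMonoidAlgebra.mapDomainRingHom_apply, AddMonoidAlgebra.mapDomain_single]
  rfl

theorem co_chi_mul {m : ℤ × ℤ} (hm : m ∈ Tor b c) (f : TorRing k b c) (p : ℤ × ℤ) :
    co (chi k b c m * f) p = co f (p - m) := by
  unfold co
  rw [map_mul, tot_chi hm, AddMonoidAlgebra.coeff_single_mul_apply, one_mul]
  congr 1
  rw [neg_add_eq_sub]

theorem co_algebraMap_mul (r : k) (f : TorRing k b c) (p : ℤ × ℤ) :
    co (algebraMap k (TorRing k b c) r * f) p = r * co f p := by
  rw [← Algebra.smul_def]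
  unfold co tot
  rw [AddMonoidAlgebra.mapDomainRingHom_apply, AddMonoidAlgebra.mapDomainRingHom_apply]
  show (Finsupp.mapDomain _ (r • f.coeff)) p = r * (Finsupp.mapDomain _ f.coeff) p
  rw [Finsupp.mapDomain_smul]
  rfl

theorem tot_torMap {b' c' : SignType} (hb : Sub b b') (hc : Sub c c') (f : TorRing k b c) :
    tot k b' c' (torMap k hb hc f) = tot k b c f := by
  unfold tot torMap
  rw [← RingHom.comp_apply, ← AddMonoidAlgebra.mapDomainRingHom_comp]
  rfl

theorem co_torMap {b' c' : SignType} (hb : Sub b b') (hc : Sub c c') (f : TorRing k b c)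
    (p : ℤ × ℤ) : co (torMap k hb hc f) p = co f p := by
  unfold co
  rw [tot_torMap]

theorem co_of_notMem (f : TorRing k b c) {p : ℤ × ℤ} (hp : p ∉ Tor b c) : co f p = 0 := by
  unfold co tot
  rw [AddMonoidAlgebra.mapDomainRingHom_apply]
  show (Finsupp.mapDomain _ f.coeff) p = 0
  apply Finsupp.mapDomain_of_notMem_range
  rintro ⟨x, rfl⟩
  exact hp x.2

/-- the element with given coefficients -/
noncomputable def mk (k : Type) [Field k] (b c : SignType) (F : ℤ × ℤ →₀ k) : TorRing k b c :=
  AddMonoidAlgebra.ofCoeff (F.subtypeDomain (fun p => p ∈ Tor b c))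

open Classical in
theorem co_mk (F : ℤ × ℤ →₀ k) (p : ℤ × ℤ) :
    co (mk k b c F) p = if p ∈ Tor b c then F p else 0 := by
  by_cases hp : p ∈ Tor b c
  · rw [if_pos hp]
    unfold co tot mk
    rw [AddMonoidAlgebra.mapDomainRingHom_apply]
    show (Finsupp.mapDomain (fun x : Tor b c => (x : ℤ × ℤ))
      (F.subtypeDomain (fun p => p ∈ Tor b c))) ((⟨p, hp⟩ : Tor b c) : ℤ × ℤ) = F p
    rw [Finsupp.mapDomain_apply Subtype.val_injective]
    rfl
  · rw [if_neg hp, co_of_notMem _ hp]

/-- the coefficients, as a finitely supported function -/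
noncomputable def em (f : TorRing k b c) : ℤ × ℤ →₀ k := (tot k b c f).coeff

theorem em_apply (f : TorRing k b c) (p : ℤ × ℤ) : em f p = co f p := rfl

end

end Pool.Agent.W410.LG
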