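import Pool.Agent.W410.LG.Tws

/-!
# LG-WVAL, part 4: the index of the model
-/

set_option autoImplicit false

namespace Pool.Agent.W410.LG

open W633.LT

theorem ind_of_surj {k V W : Type} [Field k] [AddCommGroup V] [Module k V] [AddCommGroup W]
    [Module k W] (f : V →ₗ[k] W) (hf : Function.Surjective f) :
    ind f = (Module.finrank k (LinearMap.ker f) : ℤ) := by
  unfold ind
  have h1 : LinearMap.range f = ⊤ := LinearMap.range_eq_top.2 hf
  have h2 : Subsingleton (W ⧸ LinearMap.range f) := by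
    rw [h1]
    infer_instance
  have h3 : Module.finrank k (W ⧸ LinearMap.range f) = 0 :=
    Module.finrank_zero_of_subsingleton
  rw [h3]
  simp

theorem ind_abs {k V₁ V₂ V₀ : Type} [Field k] [AddCommGroup V₁] [Module k V₁]
    [AddCommGroup V₂] [Module k V₂] [AddCommGroup V₀] [Module k V₀]
    (C₁ : V₁ →ₗ[k] (ℤ × ℤ → k)) (C₂ : V₂ →ₗ[k] (ℤ × ℤ → k)) (C₀ : V₀ →ₗ[k] (ℤ × ℤ → k))
    (J : Finset ℤ) (U₁ : Submodule k V₁) (U₂ : Submodule k V₂) (U₀ : Submodule k V₀)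
    (h₁ : ∀ f, f ∈ U₁ ↔ ∀ x, x.2 ∈ J → C₁ f x = 0)
    (h₂ : ∀ f, f ∈ U₂ ↔ ∀ x, x.2 ∈ J → C₂ f x = 0)
    (h₀ : ∀ f, f ∈ U₀ ↔ ∀ x, x.2 ∈ J → C₀ f x = 0)
    (D : (V₁ ⧸ U₁) × (V₂ ⧸ U₂) →ₗ[k] V₀ ⧸ U₀) (d : V₁ → V₂ → V₀)
    (hD : ∀ x y, D (U₁.mkQ x, U₂.mkQ y) = U₀.mkQ (d x y))
    (β : ℤ) (hβ : β = 0 ∨ β = 1)
    (hd : ∀ x y p, C₀ (d x y) p = C₁ x p - C₂ y (p.1 + 1 - β, p.2))
    (s₁ : ∀ f x, x.1 < 0 → C₁ f x = 0) (s₂ : ∀ f x, 0 < x.1 → C₂ f x = 0)
    (hsurj : ∀ z, ∃ x y, d x y = z)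
    (hex : ∀ g : J → k, ∃ x y, (∀ n : J, C₁ x (0, n) = g n) ∧
      ∀ p : ℤ × ℤ, p.2 ∈ J → C₁ x p = C₂ y p) :
    ind D = β * J.card := by
  have hs : Function.Surjective D := by
    intro w
    obtain ⟨z, rfl⟩ := U₀.mkQ_surjective w
    obtain ⟨x, y, h⟩ := hsurj z
    exact ⟨_, (hD x y).trans (by rw [h])⟩
  rw [ind_of_surj D hs]
  have hker : ∀ x y, D (U₁.mkQ x, U₂.mkQ y) = 0 ↔
      ∀ p : ℤ × ℤ, p.2 ∈ J → C₁ x p = C₂ y (p.1 + 1 - β, p.2) := by
    intro x y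
    rw [hD, Submodule.mkQ_apply, Submodule.Quotient.mk_eq_zero, h₀]
    simp only [hd, sub_eq_zero]
  rcases hβ with rfl | rfl
  · have h0 : LinearMap.ker D = ⊥ := by
      rw [LinearMap.ker_eq_bot']
      rintro ⟨x, y⟩ hxy
      obtain ⟨x, rfl⟩ := U₁.mkQ_surjective x
      obtain ⟨y, rfl⟩ := U₂.mkQ_surjective y
      rw [hker] at hxy
      have hx : ∀ p : ℤ × ℤ, p.2 ∈ J → C₁ x p = 0 := by
        intro p hp
        rcases lt_or_ge p.1 0 with h | h
        · exact s₁ x p h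
        · rw [hxy p hp]
          exact s₂ y _ (by show 0 < p.1 + 1 - 0; omega)
      have hy : ∀ p : ℤ × ℤ, p.2 ∈ J → C₂ y p = 0 := by
        intro p hp
        have := hxy (p.1 - 1, p.2) hp
        have e : ((((p.1 - 1, p.2) : ℤ × ℤ).1 + 1 - 0, ((p.1 - 1, p.2) : ℤ × ℤ).2) : ℤ × ℤ) = p := by
          ext
          · simp
          · rfl
        rw [hx (p.1 - 1, p.2) hp, e] at this
        exact this.symm
      refine Prod.ext ?_ ?_
      · exact (Submodule.Quotient.mk_eq_zero _).2 ((h₁ x).2 hx)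
      · exact (Submodule.Quotient.mk_eq_zero _).2 ((h₂ y).2 hy)
    rw [h0, finrank_bot]
    simp
  · have hshift : ∀ p : ℤ × ℤ, ((p.1 + 1 - 1, p.2) : ℤ × ℤ) = p := by
      intro p
      ext
      · simp
      · rfl
    simp only [hshift] at hker
    let κ₀ : V₁ →ₗ[k] (J → k) := LinearMap.pi (fun n => (LinearMap.proj ((0, (n : ℤ)) : ℤ × ℤ)).comp C₁)
    have hκ₀ : ∀ x (n : J), κ₀ x n = C₁ x (0, n) := fun x n => rfl
    let κ : (V₁ ⧸ U₁) →ₗ[k] (J → k) := U₁.liftQ κ₀ (by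
      intro f hf
      rw [h₁] at hf
      rw [LinearMap.mem_ker]
      ext n
      exact hf _ n.2)
    have hκ : ∀ x (n : J), κ (U₁.mkQ x) n = C₁ x (0, n) := fun x n => rfl
    let K : LinearMap.ker D →ₗ[k] (J → k) := (κ.comp (LinearMap.fst k _ _)).comp (LinearMap.ker D).subtype
    have hK : ∀ z : LinearMap.ker D, K z = κ z.1.1 := fun z => rfl
    have hinj : Function.Injective K := by
      rw [← LinearMap.ker_eq_bot, LinearMap.ker_eq_bot']
      rintro ⟨⟨x, y⟩, hxy⟩ h0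
      rw [hK] at h0
      rw [LinearMap.mem_ker] at hxy
      obtain ⟨x, rfl⟩ := U₁.mkQ_surjective x
      obtain ⟨y, rfl⟩ := U₂.mkQ_surjective y
      rw [hker] at hxy
      have hx : ∀ p : ℤ × ℤ, p.2 ∈ J → C₁ x p = 0 := by
        intro p hp
        rcases lt_trichotomy p.1 0 with h | h | h
        · exact s₁ x p h
        · have := congrFun h0 ⟨p.2, hp⟩
          have h2 : C₁ x (0, p.2) = 0 := this
          rw [← h] at h2
          exact h2
        · rw [hxy p hp]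
          exact s₂ y _ h
      have hy : ∀ p : ℤ × ℤ, p.2 ∈ J → C₂ y p = 0 := by
        intro p hp
        rw [← hxy p hp, hx p hp]
      apply Subtype.ext
      refine Prod.ext ?_ ?_
      · exact (Submodule.Quotient.mk_eq_zero _).2 ((h₁ x).2 hx)
      · exact (Submodule.Quotient.mk_eq_zero _).2 ((h₂ y).2 hy)
    have hsur : Function.Surjective K := by
      intro g
      obtain ⟨x, y, hx, hy⟩ := hex g
      refine ⟨⟨(U₁.mkQ x, U₂.mkQ y), ?_⟩, ?_⟩
      · rw [LinearMap.mem_ker, hker]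
        exact hy
      · ext n
        exact hx n
    have := (LinearEquiv.ofBijective K ⟨hinj, hsur⟩).finrank_eq
    rw [this]
    simp

end Pool.Agent.W410.LG
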