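import Pool.Agent.W410.LG.Co

/-!
# LG-WVAL, part 2: the model line bundle and its relation to the restriction
-/

set_option autoImplicit false

namespace Pool.Agent.W410.LG

open W633.LT

/-- multiplication with a unit after a ring homomorphism is a base change -/
theorem isBC_unit {A B : Type} [CommRing A] [CommRing B] (ρ : A →+* B) {u v : B} (huv : u * v = 1) :
    IsBC ρ ((AddMonoidHom.mulLeft u).comp (ρ : A →+ B)) := by
  refine ⟨fun a e => ?_, fun P _ _ g hg => ?_⟩
  · show u * ρ (a * e) = ρ a * (u * ρ e)
    rw [map_mul]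
    ring
  · refine ⟨(LinearMap.toSpanSingleton B P (g 1)).comp (LinearMap.mulLeft B v), ?_, ?_⟩
    · intro e
      show (v * (u * ρ e)) • g 1 = g e
      have h1 : v * (u * ρ e) = ρ e := by
        rw [← mul_assoc, mul_comm v u, huv, one_mul]
      rw [h1, ← hg, smul_eq_mul, mul_one]
    · intro G hG
      ext
      show G 1 = (v * 1) • g 1
      have h2 : g 1 = G u := by
        rw [← hG 1]
        congr 1
        show u * ρ 1 = u
        rw [map_one, mul_one]
      rw [h2, mul_one, ← map_smul, smul_eq_mul, mul_comm v u, huv]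

/-- the exponent of the transition function -/
def tw (β : ℤ) (b b' : SignType) : ℤ := if b = -1 ∧ b' = 0 then β else 0

theorem tw_mem (β : ℤ) {b b' : SignType} (c' : SignType) : (tw β b b', (0 : ℤ)) ∈ Tor b' c' := by
  refine ⟨?_, by simp⟩
  unfold tw
  split_ifs with h
  · rw [h.2]; simp
  · simp

theorem tw_mem' (β : ℤ) {b b' : SignType} (c' : SignType) : (-tw β b b', (0 : ℤ)) ∈ Tor b' c' := by
  refine ⟨?_, by simp⟩
  unfold tw
  split_ifs with h
  · rw [h.2]; simp
  · simp

theorem tw_unit {k : Type} [Field k] (β : ℤ) (b b' c' : SignType) :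
    chi k b' c' (tw β b b', 0) * chi k b' c' (-tw β b b', 0) = 1 := by
  rw [chi_mul (tw_mem β c') (tw_mem' β c')]
  have : ((tw β b b', (0 : ℤ)) + (-tw β b b', (0 : ℤ)) : ℤ × ℤ) = (0, 0) := by simp
  rw [this, chi_zero]

theorem tw_self (β : ℤ) (b : SignType) : tw β b b = 0 := by
  unfold tw
  rw [if_neg]
  rintro ⟨h1, h2⟩
  rw [h1] at h2
  exact absurd h2 (by decide)

theorem tw_add (β : ℤ) {b b' b'' : SignType} (hb : Sub b b') (hb' : Sub b' b'') :
    tw β b' b'' + tw β b b' = tw β b b'' := by
  rcases hb with rfl | rfl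
  · rw [tw_self, add_zero]
  · rcases hb' with rfl | rfl
    · rw [tw_self, zero_add]
    · rw [tw_self, zero_add]

/-- the restriction map of the model -/
noncomputable def ares (k : Type) [Field k] (β : ℤ) {b c b' c' : SignType} (hb : Sub b b')
    (hc : Sub c c') : TorRing k b c →+ TorRing k b' c' :=
  (AddMonoidHom.mulLeft (chi k b' c' (tw β b b', 0))).comp
    ((torMap k hb hc : TorRing k b c →+* TorRing k b' c') : TorRing k b c →+ TorRing k b' c')

theorem ares_apply {k : Type} [Field k] (β : ℤ) {b c b' c' : SignType} (hb : Sub b b')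
    (hc : Sub c c') (f : TorRing k b c) :
    ares k β hb hc f = chi k b' c' (tw β b b', 0) * torMap k hb hc f := rfl

theorem co_ares {k : Type} [Field k] (β : ℤ) {b c b' c' : SignType} (hb : Sub b b')
    (hc : Sub c c') (f : TorRing k b c) (p : ℤ × ℤ) :
    co (ares k β hb hc f) p = co f (p - (tw β b b', 0)) := by
  rw [ares_apply, co_chi_mul (tw_mem β c'), co_torMap]

/-- the pull-back of the line bundle of degree `β` on the first projective line -/
noncomputable def AA (k : Type) [Field k] (β : ℤ) : MFam k where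
  mod b c := TorRing k b c
  res hb hc := ares k β hb hc
  res_bc {b c b' c'} hb hc := isBC_unit (torMap k hb hc) (tw_unit β b b' c')
  res_refl b c v := by
    apply co_ext
    intro p
    rw [co_ares, tw_self]
    congr 1
    exact sub_zero p
  res_comp {b c b' c' b'' c''} hb hc hb' hc' v := by
    apply co_ext
    intro p
    rw [co_ares, co_ares, co_ares, ← tw_add β hb hb']
    congr 1
    ext
    · show p.1 - tw β b' b'' - tw β b b' = p.1 - (tw β b' b'' + tw β b b')
      ring
    · simp

/-! ### comparison with the restriction -/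

section

variable {k : Type} [Field k] {S : Subdiv} {v l r : ℚ}

theorem ringMap_mono {x y : Raw} (h : IsHom 0 x y) {m : W633.LT.Lat} (hm : m ∈ x.mon) :
    ringMap k h (x.mono k m) = y.mono k m := by
  have hy : m ∈ y.mon := by
    have := h m hm
    rwa [deck_zero] at this
  rw [Raw.mono, dif_pos hm, Raw.mono, dif_pos hy]
  unfold ringMap
  rw [Ideal.quotientMap_mk]
  congr 1
  rw [AddMonoidAlgebra.mapDomainRingHom_apply, AddMonoidAlgebra.mapDomain_single]
  congr 1
  apply Subtype.ext
  exact deck_zero m

theorem faceVal_torMap {b c b' c' : SignType} (hl : l < v) (hr : v < r) (hb : Sub b b')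
    (hc : Sub c c') {m : W633.LT.Lat} (hm : m ∈ (fibRaw v l r b c).mon) :
    torMap k hb hc (faceVal k v b c m) = faceVal k v b' c' m := by
  unfold faceVal
  split_ifs with h0
  · exact torMap_chi hb hc (fib_face_mem hl hr hm h0).1
  · exact map_zero _

theorem ringHom_ext' {R : Type} [Semiring R] {x : Raw} {f g : x.ring k →+* R}
    (h0 : ∀ a : k, f (algebraMap k _ a) = g (algebraMap k _ a))
    (h1 : ∀ m ∈ x.mon, f (x.mono k m) = g (x.mono k m)) : f = g := by
  apply Ideal.Quotient.ringHom_ext
  apply AddMonoidAlgebra.ringHom_ext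
  · intro a
    exact h0 a
  · rintro ⟨m, hm⟩
    have := h1 m hm
    rw [Raw.mono, dif_pos hm] at this
    exact this

theorem ringMap_algebraMap {x y : Raw} (h : IsHom 0 x y) (a : k) :
    ringMap k h (algebraMap k _ a) = algebraMap k _ a := by
  show ringMap k h (Ideal.Quotient.mk _ (AddMonoidAlgebra.single 0 a)) =
    Ideal.Quotient.mk _ (AddMonoidAlgebra.single 0 a)
  unfold ringMap
  rw [Ideal.quotientMap_mk, AddMonoidAlgebra.mapDomainRingHom_apply,
    AddMonoidAlgebra.mapDomain_single, map_zero]

theorem piHom_algebraMap (hl : l < v) (hr : v < r) (b c : SignType) (a : k) :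
    piHom k hl hr b c (algebraMap k _ a) = algebraMap k _ a := by
  exact AlgHom.commutes (AddMonoidAlgebra.lift k (TorRing k b c) (fibRaw v l r b c).mon
    (faceHom k hl hr b c)) a

theorem torMap_algebraMap {b c b' c' : SignType} (hb : Sub b b') (hc : Sub c c') (a : k) :
    torMap k hb hc (algebraMap k _ a) = algebraMap k _ a := by
  simp [torMap, AddMonoidAlgebra.coe_algebraMap]

theorem piHom_comp (hl : l < v) (hr : v < r) {b c b' c' : SignType} (hb : Sub b b')
    (hc : Sub c c') : (piHom k hl hr b' c').comp (ringMap k (fib_isHom (v := v) (l := l) (r := r) hb hc)) =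
      (torMap k hb hc).comp (piHom k hl hr b c) := by
  apply ringHom_ext'
  · intro a
    rw [RingHom.comp_apply, RingHom.comp_apply, ringMap_algebraMap, piHom_algebraMap,
      piHom_algebraMap, torMap_algebraMap]
  · intro m hm
    have hm' : m ∈ (fibRaw v l r b' c').mon := by
      have := fib_isHom hb hc m hm
      rwa [deck_zero] at this
    rw [RingHom.comp_apply, RingHom.comp_apply, ringMap_mono _ hm, piHom_mono k hl hr hm',
      piHom_mono k hl hr hm, faceVal_torMap hl hr hb hc hm]

theorem piC_ringMap (h : Adm S v l r) {b c b' c' : SignType} (hb : Sub b b') (hc : Sub c c')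
    (f : (fibChart h b c).1.ring k) :
    piC k h b' c' (ringMap k (fib_isHom hb hc) f) = torMap k hb hc (piC k h b c f) :=
  congrArg (fun F : (fibRaw v l r b c).ring k →+* TorRing k b' c' => F f)
    (piHom_comp h.lv h.vr hb hc)

end

end Pool.Agent.W410.LG
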