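import Pool.Agent.W410.LG.Mod

/-!
# LG-WVAL, part 3: the restriction of a line bundle is a twist of the model
-/

set_option autoImplicit false

namespace Pool.Agent.W410.LG

open W633.LT

variable {k : Type} [Field k] {S : Subdiv} {v l r : ℚ}

/-- the base change of the ring itself -/
theorem isBC_ring {A B : Type} [CommRing A] [CommRing B] (ρ : A →+* B) :
    IsBC ρ (ρ : A →+ B) := by
  have h := isBC_unit ρ (one_mul (1 : B))
  have e : (AddMonoidHom.mulLeft (1 : B)).comp (ρ : A →+ B) = (ρ : A →+ B) := by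
    ext x
    show 1 * ρ x = ρ x
    rw [one_mul]
  rwa [e] at h

theorem isBC_src {A B M N : Type} [CommRing A] [CommRing B] [AddCommGroup M] [Module A M]
    [AddCommGroup N] [Module B N] {ρ : A →+* B} {φ : M →+ N} (h : IsBC ρ φ) (ψ : A ≃ₗ[A] M) :
    IsBC ρ (φ.comp ψ.toAddEquiv.toAddMonoidHom) :=
  (IsBC.trans_equiv (IsBC.refl A A) ψ).comp h

/-- the affine part of the transition function -/
def dlt (v l r : ℚ) (m : ℚ → ℚ → ℤ × ℤ) (b c b' c' : SignType) : ℤ × ℤ :=
  m (fibRaw v l r b c).l (fibRaw v l r b c).r - m (fibRaw v l r b' c').l (fibRaw v l r b' c').r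

theorem dlt_self (m : ℚ → ℚ → ℤ × ℤ) (b b' c : SignType) : dlt v l r m b c b' c = 0 :=
  sub_self _

theorem fib_le (h : Adm S v l r) (b c : SignType) :
    (fibRaw v l r b c).l ≤ v ∧ v ≤ (fibRaw v l r b c).r := by
  have h1 := h.lv.le
  have h2 := h.vr.le
  rcases c with _ | _ | _
  · exact ⟨le_refl v, le_refl v⟩
  · exact ⟨h1, le_refl v⟩
  · exact ⟨le_refl v, h2⟩

theorem dlt_val (h : Adm S v l r) {fn : ℚ → ℚ} {m : ℚ → ℚ → ℤ × ℤ} (hm : IsLift S fn m)
    (b c b' c' : SignType) :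
    ((dlt v l r m b c b' c').1 : ℚ) * v + (dlt v l r m b c b' c').2 = 0 := by
  have h1 := hm (fibChart h b c) v (fib_le h b c).1 (fib_le h b c).2
  have h2 := hm (fibChart h b' c') v (fib_le h b' c').1 (fib_le h b' c').2
  have h3 : fn v = (m (fibRaw v l r b c).l (fibRaw v l r b c).r).1 * v +
    (m (fibRaw v l r b c).l (fibRaw v l r b c).r).2 := h1
  have h4 : fn v = (m (fibRaw v l r b' c').l (fibRaw v l r b' c').r).1 * v +
    (m (fibRaw v l r b' c').l (fibRaw v l r b' c').r).2 := h2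
  unfold dlt
  simp only [Prod.fst_sub, Prod.snd_sub]
  push_cast
  linarith

theorem lam_sub (h : Adm S v l r) (β₁ β₂ : ℤ) (m : ℚ → ℚ → ℤ × ℤ) {b b' : SignType}
    (hb : Sub b b') (c c' : SignType) :
    lam β₁ β₂ m (fibChart h b c) - lam β₁ β₂ m (fibChart h b' c') =
      ((tw β₁ b b', 0, dlt v l r m b c b' c') : W633.LT.Lat) := by
  have h0 : ((0 : SignType) = -1) = False := by simp
  rcases hb with rfl | rfl
  · refine Prod.ext ?_ (Prod.ext ?_ rfl)
    · rw [tw_self]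
      show (if b' = -1 then β₁ else 0) - (if b' = -1 then β₁ else 0) = 0
      rw [sub_self]
    · show (if (0 : SignType) = -1 then β₂ else 0) - (if (0 : SignType) = -1 then β₂ else 0) = 0
      rw [sub_self]
  · refine Prod.ext ?_ (Prod.ext ?_ rfl)
    · show (if b = -1 then β₁ else 0) - (if (0 : SignType) = -1 then β₁ else 0) = tw β₁ b 0
      rw [if_neg (by decide : ¬ (0 : SignType) = -1), sub_zero]
      unfold tw
      simp
    · show (if (0 : SignType) = -1 then β₂ else 0) - (if (0 : SignType) = -1 then β₂ else 0) = 0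
      rw [sub_self]

theorem mem_mon (h : Adm S v l r) {fn : ℚ → ℚ} {m : ℚ → ℚ → ℤ × ℤ} (hm : IsLift S fn m)
    (β : ℤ) {b b' c c' : SignType} (hc : Sub c c') :
    ((tw β b b', 0, dlt v l r m b c b' c') : W633.LT.Lat) ∈ (fibRaw v l r b' c').mon := by
  have hv := dlt_val h hm b c b' c'
  refine ⟨(tw_mem β c').1, ?_, ?_, ?_⟩
  · show (0 : ℤ) ≤ ((0 : SignType) : ℤ) * 0
    simp
  · rcases hc with rfl | rfl
    · rw [dlt_self]; simp
    · exact hv.ge
  · rcases hc with rfl | rfl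
    · rw [dlt_self]; simp
    · exact hv.ge

theorem piC_mono (h : Adm S v l r) {fn : ℚ → ℚ} {m : ℚ → ℚ → ℤ × ℤ} (hm : IsLift S fn m)
    (β₁ β₂ : ℤ) {b b' c c' : SignType} (hb : Sub b b') (hc : Sub c c') :
    piC k h b' c' ((fibChart h b' c').1.mono k
      (lam β₁ β₂ m (fibChart h b c) - lam β₁ β₂ m (fibChart h b' c'))) =
      chi k b' c' (tw β₁ b b', (dlt v l r m b c b' c').1 / v.den) := by
  rw [lam_sub h β₁ β₂ m hb c c']
  refine (piHom_mono k h.lv h.vr (mem_mon h hm β₁ hc)).trans ?_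
  unfold faceVal
  rw [if_pos (dlt_val h hm b c b' c')]

/-- the comparison isomorphism -/
theorem exists_cmp (h : Adm S v l r) {fn : ℚ → ℚ} {m : ℚ → ℚ → ℤ × ℤ} (hm : IsLift S fn m)
    {L : Bundle0 k S} {β₁ β₂ : ℤ} {N : MFam k} {φ : ∀ b c, L.mod (fibChart h b c) →+ N.mod b c}
    (hL : IsLine L (lam β₁ β₂ m)) (hN : IsFib L h N φ) :
    ∃ Φ : ∀ b c : SignType, TorRing k b c ≃ₗ[TorRing k b c] N.mod b c,
      ∀ {b c b' c' : SignType} (hb : Sub b b') (hc : Sub c c') (f : TorRing k b c),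
        N.res hb hc (Φ b c f) =
          Φ b' c' (chi k b' c' (tw β₁ b b', (dlt v l r m b c b' c').1 / v.den) *
            torMap k hb hc f) := by
  obtain ⟨ψ, hψ⟩ := hL
  refine ⟨fun b c => (isBC_ring (piC k h b c)).equiv (isBC_src (hN.bc b c) (ψ (fibChart h b c))),
    ?_⟩
  intro b c b' c' hb hc f
  have key : ∀ (b c : SignType) (f : (fibChart h b c).1.ring k),
      (isBC_ring (piC k h b c)).equiv (isBC_src (hN.bc b c) (ψ (fibChart h b c)))
        (piC k h b c f) = φ b c (ψ (fibChart h b c) f) := fun b c f =>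
    IsBC.equiv_apply (isBC_ring (piC k h b c)) (isBC_src (hN.bc b c) (ψ (fibChart h b c))) f
  generalize hΦ : (fun b c => (isBC_ring (piC k h b c)).equiv
    (isBC_src (hN.bc b c) (ψ (fibChart h b c)))) = Φ
  have key' : ∀ (b c : SignType) (f : (fibChart h b c).1.ring k),
      Φ b c (piC k h b c f) = φ b c (ψ (fibChart h b c) f) := by
    intro b c f
    rw [← hΦ]
    exact key b c f
  show N.res hb hc (Φ b c f) = Φ b' c' _
  refine (isBC_ring (piC k h b c)).ext_semi (ρ' := torMap k hb hc)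
    (G := (N.res hb hc).comp (Φ b c).toAddEquiv.toAddMonoidHom)
    (G' := ((Φ b' c').toAddEquiv.toAddMonoidHom.comp (AddMonoidHom.mulLeft
      (chi k b' c' (tw β₁ b b', (dlt v l r m b c b' c').1 / v.den)))).comp
        ((torMap k hb hc : TorRing k b c →+* TorRing k b' c') : TorRing k b c →+ TorRing k b' c'))
    ?_ ?_ ?_ f
  · intro a n
    show N.res hb hc (Φ b c (a • n)) = torMap k hb hc a • N.res hb hc (Φ b c n)
    rw [map_smul, (N.res_bc hb hc).1]
  · intro a n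
    show Φ b' c' (chi k b' c' _ * torMap k hb hc (a * n)) =
      torMap k hb hc a • Φ b' c' (chi k b' c' _ * torMap k hb hc n)
    rw [← map_smul, smul_eq_mul, RingHom.map_mul]
    congr 1
    ring
  · intro g
    show N.res hb hc (Φ b c (piC k h b c g)) = Φ b' c' (chi k b' c' _ *
      torMap k hb hc (piC k h b c g))
    have e1 := hψ (x := fibChart h b c) (y := fibChart h b' c') (fib_isHom hb hc) g
    rw [key', ← hN.comm hb hc]
    refine (congrArg (φ b' c') e1).trans ?_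
    rw [← key', RingHom.map_mul, piC_mono h hm β₁ β₂ hb hc]
    refine congrArg (Φ b' c') (congrArg (fun z => _ * z) ?_)
    exact piC_ringMap h hb hc g

theorem split_chi {b : SignType} {M : Type} [AddCommGroup M] [Module (TorRing k b 0) M]
    (Φ : TorRing k b 0 ≃ₗ[TorRing k b 0] M) (t e : ℤ) (ht : (t, (0 : ℤ)) ∈ Tor b 0)
    (y : TorRing k b 0) :
    Φ (chi k b 0 (t, e) * y) = chi k b 0 (0, e) • Φ (chi k b 0 (t, 0) * y) := by
  rw [← map_smul, smul_eq_mul, ← mul_assoc, chi_mul (⟨by simp, by simp⟩) ht]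
  congr 3
  simp

theorem twist (h : Adm S v l r) {fn : ℚ → ℚ} {m : ℚ → ℚ → ℤ × ℤ} (hm : IsLift S fn m)
    {L : Bundle0 k S} {β₁ β₂ : ℤ} {N : MFam k} {φ : ∀ b c, L.mod (fibChart h b c) →+ N.mod b c}
    (hL : IsLine L (lam β₁ β₂ m)) (hN : IsFib L h N φ) :
    MFam.Twist (AA k β₁) N (((m v r).1 - (m v v).1) / v.den)
      (((m l v).1 - (m v v).1) / v.den) := by
  obtain ⟨Φ, hΦ⟩ := exists_cmp h hm hL hN
  refine ⟨Φ, ?_, ?_, ?_⟩
  · intro b b' hb c f
    refine (hΦ hb (Sub.refl c) f).trans ?_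
    rw [dlt_self]
    have : ((0 : ℤ × ℤ).1 / (v.den : ℤ)) = 0 := Int.zero_ediv _
    rw [this]
    rfl
  · intro b b' hb f
    refine (hΦ hb (Sub.zero 1) f).trans ?_
    exact split_chi (Φ b' 0) _ _ (tw_mem β₁ 0) _
  · intro b b' hb f
    refine (hΦ hb (Sub.zero (-1)) f).trans ?_
    exact split_chi (Φ b' 0) _ _ (tw_mem β₁ 0) _

theorem den_dvd {v : ℚ} {a : ℤ × ℤ} (h : (a.1 : ℚ) * v + a.2 = 0) : (v.den : ℤ) ∣ a.1 := by
  have h1 : (a.1 : ℚ) * v.num + a.2 * v.den = 0 := by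
    have hv : v * v.den = v.num := Rat.mul_den_eq_num v
    calc (a.1 : ℚ) * v.num + a.2 * v.den
        = ((a.1 : ℚ) * v + a.2) * v.den := by rw [← hv]; ring
      _ = 0 := by rw [h, zero_mul]
  have h2 : a.1 * v.num + a.2 * v.den = 0 := by exact_mod_cast h1
  have h3 : (v.den : ℤ) ∣ a.1 * v.num := ⟨-a.2, by linarith⟩
  have hco : IsCoprime (v.den : ℤ) v.num := by
    have := v.reduced
    rw [Int.isCoprime_iff_gcd_eq_one, Int.gcd_comm]
    simpa [Int.gcd] using this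
  exact hco.dvd_of_dvd_mul_right h3

theorem twist_diff (h : Adm S v l r) {fn : ℚ → ℚ} {m : ℚ → ℚ → ℤ × ℤ} (hm : IsLift S fn m) :
    ((m l v).1 - (m v v).1) / v.den - ((m v r).1 - (m v v).1) / v.den =
      ((m l v).1 - (m v r).1) / v.den := by
  have e1 : (v.den : ℤ) ∣ (m l v).1 - (m v v).1 := by
    have := den_dvd (dlt_val h hm 0 (-1) 0 0)
    simpa [dlt, fibRaw] using this
  have e2 : (v.den : ℤ) ∣ (m v r).1 - (m v v).1 := by
    have := den_dvd (dlt_val h hm 0 1 0 0)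
    simpa [dlt, fibRaw] using this
  rw [← Int.sub_ediv_of_dvd _ e2]
  congr 1
  ring

/-- reduction to the model -/
theorem wVal_of_model (h1 : FamTwist) (h3 : MGood) (h4 : MToFam)
    (H : ∀ (k : Type) [Field k] (β : ℤ), (β = 0 ∨ β = 1) →
      (AA k β).toFam.deg 1 = β ∧ (AA k β).toFam.e = 0) : WVal := by
  intro k _ S fn m L β₁ β₂ v l r h N φ hm hβ hL hN
  obtain ⟨H1, H2⟩ := H k β₁ hβ
  have ht := (h4 k).2 _ _ _ _ (twist h hm hL hN)
  obtain ⟨g1, g2⟩ := h1 k _ _ _ _ (h3 k _) (h3 k _) ht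
  refine ⟨by rw [g2, H1], ?_⟩
  rw [g1, H1, H2, twist_diff h hm, zero_add, mul_comm]

end Pool.Agent.W410.LG
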