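import Pool.Agent.W410.LG.Idx

/-!
# LG-WVAL: values for line bundles
-/

set_option autoImplicit false

namespace Pool.Agent.W410.LG

open W633.LT

section

variable {k : Type} [Field k]

open Classical in
/-- cut and shift -/
noncomputable def sh {b c : SignType} (b' c' : SignType) (s : ℤ × ℤ) (P : ℤ × ℤ → Prop)
    (f : TorRing k b c) : TorRing k b' c' :=
  mk k b' c' (Finsupp.equivMapDomain (Equiv.addRight s) ((em f).filter P))

open Classical in
theorem co_sh {b c : SignType} (b' c' : SignType) (s : ℤ × ℤ) (P : ℤ × ℤ → Prop)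
    (f : TorRing k b c) (p : ℤ × ℤ) :
    co (sh b' c' s P f) p = if p ∈ Tor b' c' ∧ P (p - s) then co f (p - s) else 0 := by
  unfold sh
  rw [co_mk, Finsupp.equivMapDomain_apply]
  have e : (Equiv.addRight s).symm p = p - s := by
    rw [Equiv.addRight_symm]
    rfl
  rw [e]
  by_cases h1 : p ∈ Tor b' c'
  · rw [if_pos h1]
    by_cases h2 : P (p - s)
    · rw [if_pos ⟨h1, h2⟩, Finsupp.filter_apply_pos _ _ h2, em_apply]
    · rw [if_neg (fun h => h2 h.2), Finsupp.filter_apply_neg _ _ h2]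
  · rw [if_neg h1, if_neg (fun h => h1 h.1)]

theorem mem_tor {b c : SignType} {p : ℤ × ℤ} :
    p ∈ Tor b c ↔ 0 ≤ (b : ℤ) * p.1 ∧ 0 ≤ (c : ℤ) * p.2 := Iff.rfl

variable (k) in
/-- the coefficients, as a linear map -/
noncomputable def CC (β : ℤ) (b c : SignType) : (AA k β).toFam.V b c →ₗ[k] (ℤ × ℤ → k) where
  toFun f := fun p => co (show TorRing k b c from f) p
  map_add' _ _ := funext (fun p => co_add _ _ p)
  map_smul' r _ := funext (fun p => co_algebraMap_mul r _ p)

theorem CC_apply (β : ℤ) (b c : SignType) (f : TorRing k b c) (p : ℤ × ℤ) :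
    CC k β b c f p = co f p := rfl

theorem CC_ext (β : ℤ) {b c : SignType} {f g : (AA k β).toFam.V b c}
    (h : ∀ p, CC k β b c f p = CC k β b c g p) : f = g :=
  co_ext (k := k) (b := b) (c := c) h

theorem CC_act (β : ℤ) {b c : SignType} {m n : ℤ} (hm : (m, n) ∈ Tor b c)
    (f : (AA k β).toFam.V b c) (p : ℤ × ℤ) :
    CC k β b c ((AA k β).toFam.act b c m n f) p = CC k β b c f (p - (m, n)) :=
  co_chi_mul hm _ p

theorem CC_res (β : ℤ) {b c b' c' : SignType} (hb : Sub b b') (hc : Sub c c')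
    (f : (AA k β).toFam.V b c) (p : ℤ × ℤ) :
    CC k β b' c' ((AA k β).toFam.res hb hc f) p = CC k β b c f (p - (tw β b b', 0)) :=
  co_ares β hb hc _ p

theorem CC_of_notMem (β : ℤ) {b c : SignType} (f : (AA k β).toFam.V b c) {p : ℤ × ℤ}
    (hp : p ∉ Tor b c) : CC k β b c f p = 0 := co_of_notMem _ hp

/-- cut and shift in the model -/
noncomputable def vsh (β : ℤ) {b c : SignType} (b' c' : SignType) (s : ℤ × ℤ) (P : ℤ × ℤ → Prop)
    (f : (AA k β).toFam.V b c) : (AA k β).toFam.V b' c' :=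
  sh (k := k) (b := b) (c := c) b' c' s P f

open Classical in
theorem CC_vsh (β : ℤ) {b c : SignType} (b' c' : SignType) (s : ℤ × ℤ) (P : ℤ × ℤ → Prop)
    (f : (AA k β).toFam.V b c) (p : ℤ × ℤ) :
    CC k β b' c' (vsh β b' c' s P f) p =
      if p ∈ Tor b' c' ∧ P (p - s) then CC k β b c f (p - s) else 0 :=
  co_sh b' c' s P _ p

/-- elements of the model from coefficients -/
noncomputable def vmk (β : ℤ) (b c : SignType) (F : ℤ × ℤ →₀ k) : (AA k β).toFam.V b c :=
  mk k b c F

open Classical in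
theorem CC_vmk (β : ℤ) (b c : SignType) (F : ℤ × ℤ →₀ k) (p : ℤ × ℤ) :
    CC k β b c (vmk β b c F) p = if p ∈ Tor b c then F p else 0 := co_mk F p

theorem tw_one (β : ℤ) : tw β 1 0 = 0 := by simp [tw]

theorem tw_neg (β : ℤ) : tw β (-1) 0 = β := by simp [tw]

/-- the index in the model -/
theorem ind_model (β : ℤ) (hβ : β = 0 ∨ β = 1) (c : SignType) (J : Finset ℤ)
    (hJ : ∀ n ∈ J, 0 ≤ (c : ℤ) * n)
    (U : ∀ b, Submodule k ((AA k β).toFam.V b c))
    (hU : ∀ b f, f ∈ U b ↔ ∀ x, x.2 ∈ J → CC k β b c f x = 0)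
    (D : (((AA k β).toFam.V 1 c) ⧸ U 1) × (((AA k β).toFam.V (-1) c) ⧸ U (-1)) →ₗ[k]
      ((AA k β).toFam.V 0 c) ⧸ U 0)
    (hD : ∀ x y, D ((U 1).mkQ x, (U (-1)).mkQ y) = (U 0).mkQ
      ((AA k β).toFam.res (Sub.zero 1) (Sub.refl c) x -
        (AA k β).toFam.act 0 c (-1) 0 ((AA k β).toFam.res (Sub.zero (-1)) (Sub.refl c) y))) :
    ind D = β * J.card := by
  have hm1 : ((-1 : ℤ), (0 : ℤ)) ∈ Tor 0 c := ⟨by simp, by simp⟩
  have hd : ∀ x y (p : ℤ × ℤ), CC k β 0 c ((AA k β).toFam.res (Sub.zero 1) (Sub.refl c) x -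
        (AA k β).toFam.act 0 c (-1) 0 ((AA k β).toFam.res (Sub.zero (-1)) (Sub.refl c) y)) p =
      CC k β 1 c x p - CC k β (-1) c y (p.1 + 1 - β, p.2) := by
    intro x y p
    rw [map_sub, Pi.sub_apply, CC_act β hm1, CC_res, CC_res, tw_one, tw_neg]
    have e1 : p - ((0 : ℤ), (0 : ℤ)) = p := sub_zero p
    have e2 : p - ((-1 : ℤ), (0 : ℤ)) - (β, 0) = (p.1 + 1 - β, p.2) := by
      ext
      · show p.1 - (-1) - β = p.1 + 1 - β
        ring
      · show p.2 - 0 - 0 = p.2
        ring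
    rw [e1, e2]
  refine ind_abs (CC k β 1 c) (CC k β (-1) c) (CC k β 0 c) J (U 1) (U (-1)) (U 0) (hU 1)
    (hU (-1)) (hU 0) D _ hD β hβ hd ?_ ?_ ?_ ?_
  · intro f x hx
    apply CC_of_notMem
    intro h
    have := h.1
    simp only [SignType.coe_one, one_mul] at this
    omega
  · intro f x hx
    apply CC_of_notMem
    intro h
    have := h.1
    simp only [SignType.coe_neg_one, neg_mul, one_mul] at this
    omega
  · intro z
    refine ⟨vsh β 1 c 0 (fun _ => True) z, -(vsh β (-1) c (1 - β, 0) (fun p => p.1 < 0) z), ?_⟩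
    apply CC_ext
    intro p
    rw [hd, map_neg, Pi.neg_apply, CC_vsh, CC_vsh]
    have e1 : p - 0 = p := sub_zero p
    have e2 : ((p.1 + 1 - β, p.2) : ℤ × ℤ) - (1 - β, 0) = p := by
      ext
      · show p.1 + 1 - β - (1 - β) = p.1
        ring
      · show p.2 - 0 = p.2
        ring
    rw [e1, e2]
    by_cases hc : 0 ≤ (c : ℤ) * p.2
    · rcases lt_or_ge p.1 0 with h | h
      · rw [if_neg, if_pos, sub_neg_eq_add, zero_add]
        · refine ⟨⟨?_, hc⟩, h⟩
          show 0 ≤ ((-1 : SignType) : ℤ) * (p.1 + 1 - β)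
          simp only [SignType.coe_neg_one]
          rcases hβ with rfl | rfl <;> omega
        · rintro ⟨⟨h1, -⟩, -⟩
          simp only [SignType.coe_one, one_mul] at h1
          omega
      · rw [if_pos, if_neg, neg_zero, sub_zero]
        · rintro ⟨-, h1⟩
          omega
        · refine ⟨⟨?_, hc⟩, trivial⟩
          simp only [SignType.coe_one, one_mul]
          exact h
    · rw [if_neg (fun h => hc h.1.2), if_neg (fun h => hc h.1.2), neg_zero, sub_zero,
        CC_of_notMem β z (fun h => hc h.2)]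
  · intro g
    classical
    let G : ℤ × ℤ →₀ k := Finsupp.onFinset (({0} : Finset ℤ) ×ˢ J)
      (fun p => if h : p.1 = 0 ∧ p.2 ∈ J then g ⟨p.2, h.2⟩ else 0) (by
        intro p hp
        by_cases h : p.1 = 0 ∧ p.2 ∈ J
        · exact Finset.mem_product.2 ⟨Finset.mem_singleton.2 h.1, h.2⟩
        · simp [h] at hp)
    have hG : ∀ p : ℤ × ℤ, G p = if h : p.1 = 0 ∧ p.2 ∈ J then g ⟨p.2, h.2⟩ else 0 :=
      fun p => rfl
    have hmem : ∀ b : SignType, ∀ n ∈ J, ((0 : ℤ), n) ∈ Tor b c := by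
      intro b n hn
      exact ⟨by simp, hJ n hn⟩
    refine ⟨vmk β 1 c G, vmk β (-1) c G, ?_, ?_⟩
    · intro n
      rw [CC_vmk, if_pos (hmem 1 n n.2), hG, dif_pos ⟨rfl, n.2⟩]
    · intro p hp
      rw [CC_vmk, CC_vmk, hG]
      by_cases h : p.1 = 0
      · have e : p = (0, p.2) := Prod.ext h rfl
        rw [if_pos (by rw [e]; exact hmem 1 _ hp), if_pos (by rw [e]; exact hmem (-1) _ hp)]
      · rw [dif_neg (fun hh => h hh.1)]
        simp

theorem subL_iff (β : ℤ) (b : SignType) (f : (AA k β).toFam.V b 1) :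
    f ∈ (AA k β).toFam.subL b 1 ↔ ∀ x : ℤ × ℤ, x.2 ∈ ({0} : Finset ℤ) → CC k β b 1 f x = 0 := by
  have hm : ((0 : ℤ), (((1 : SignType) : ℤ))) ∈ Tor b 1 := ⟨by simp, by simp⟩
  constructor
  · rintro ⟨g, rfl⟩ x hx
    rw [CC_act β hm]
    apply CC_of_notMem
    rintro ⟨-, h⟩
    have h1 : x.2 = 0 := by simpa using hx
    have h2 : (0 : ℤ) ≤ ((1 : SignType) : ℤ) * (x.2 - ((1 : SignType) : ℤ)) := h
    simp only [SignType.coe_one, one_mul] at h2
    omega
  · intro h
    refine ⟨vsh β b 1 (0, -1) (fun _ => True) f, ?_⟩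
    apply CC_ext
    intro p
    rw [CC_act β hm, CC_vsh]
    have e : p - ((0 : ℤ), ((1 : SignType) : ℤ)) - (0, -1) = p := by
      ext
      · show p.1 - 0 - 0 = p.1
        ring
      · show p.2 - ((1 : SignType) : ℤ) - (-1) = p.2
        simp
    rw [e]
    split_ifs with h1
    · rfl
    · by_cases h2 : p ∈ Tor b 1
      · rw [h p]
        rw [Finset.mem_singleton]
        by_contra h3
        apply h1
        refine ⟨⟨?_, ?_⟩, trivial⟩
        · have := h2.1
          simpa using this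
        · have := h2.2
          show (0 : ℤ) ≤ ((1 : SignType) : ℤ) * (p.2 - ((1 : SignType) : ℤ))
          simp only [SignType.coe_one, one_mul] at this ⊢
          omega
      · rw [CC_of_notMem β f h2]

theorem sub_iff (β : ℤ) (b : SignType) (q : ℤ) (_hq : 1 ≤ q) (f : (AA k β).toFam.V b 0) :
    f ∈ (AA k β).toFam.sub b 0 q ↔
      ∀ x : ℤ × ℤ, x.2 ∈ Finset.Ioo (-q) 0 → CC k β b 0 f x = 0 := by
  have hm0 : ((0 : ℤ), (0 : ℤ)) ∈ Tor b 0 := ⟨by simp, by simp⟩
  have hmq : ((0 : ℤ), -q) ∈ Tor b 0 := ⟨by simp, by simp⟩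
  have e0 : ∀ p : ℤ × ℤ, p - ((0 : ℤ), (0 : ℤ)) = p := fun p => sub_zero p
  have eq : ∀ p : ℤ × ℤ, p - ((0 : ℤ), -q) = (p.1, p.2 + q) := by
    intro p
    ext
    · show p.1 - 0 = p.1
      ring
    · show p.2 - (-q) = p.2 + q
      ring
  constructor
  · let W : Submodule k ((AA k β).toFam.V b 0) :=
      { carrier := {f | ∀ x : ℤ × ℤ, x.2 ∈ Finset.Ioo (-q) 0 → CC k β b 0 f x = 0}
        add_mem' := by
          intro f g hf hg x hx
          rw [map_add, Pi.add_apply, hf x hx, hg x hx, add_zero]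
        zero_mem' := by
          intro x _
          rw [map_zero]
          rfl
        smul_mem' := by
          intro r f hf x hx
          rw [map_smul, Pi.smul_apply, hf x hx, smul_zero] }
    have hW : (AA k β).toFam.sub b 0 q ≤ W := by
      refine sup_le ?_ ?_
      · rintro _ ⟨_, ⟨x, rfl⟩, rfl⟩ p hp
        rw [CC_act β hm0, CC_res, tw_self, e0, e0]
        apply CC_of_notMem
        rintro ⟨-, h⟩
        rw [Finset.mem_Ioo] at hp
        simp only [SignType.coe_one, one_mul] at h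
        omega
      · rintro _ ⟨_, ⟨x, rfl⟩, rfl⟩ p hp
        rw [CC_act β hmq, CC_res, tw_self, e0, eq]
        apply CC_of_notMem
        rintro ⟨-, h⟩
        rw [Finset.mem_Ioo] at hp
        have h2 : (0 : ℤ) ≤ ((-1 : SignType) : ℤ) * (p.2 + q) := h
        simp only [SignType.coe_neg_one] at h2
        omega
    intro hf
    exact hW hf
  · intro h
    have key : f = (AA k β).toFam.act b 0 0 0 ((AA k β).toFam.res (Sub.refl b) (Sub.zero 1)
          (vsh β b 1 0 (fun _ => True) f)) +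
        (AA k β).toFam.act b 0 0 (-q) ((AA k β).toFam.res (Sub.refl b) (Sub.zero (-1))
          (vsh β b (-1) (0, q) (fun p => p.2 < 0) f)) := by
      apply CC_ext
      intro p
      rw [map_add, Pi.add_apply, CC_act β hm0, CC_act β hmq, CC_res, CC_res, tw_self, e0, e0, e0,
        eq, CC_vsh, CC_vsh]
      have e3 : ((p.1, p.2 + q) : ℤ × ℤ) - (0, q) = p := by
        ext
        · show p.1 - 0 = p.1
          ring
        · show p.2 + q - q = p.2
          ring
      have e4 : p - 0 = p := sub_zero p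
      rw [e3, e4]
      by_cases hb : 0 ≤ (b : ℤ) * p.1
      · rcases lt_or_ge p.2 0 with h2 | h2
        · rw [if_neg, zero_add]
          · by_cases h3 : p.2 ≤ -q
            · rw [if_pos]
              refine ⟨⟨hb, ?_⟩, h2⟩
              show (0 : ℤ) ≤ ((-1 : SignType) : ℤ) * (p.2 + q)
              simp only [SignType.coe_neg_one]
              omega
            · rw [if_neg, h p (Finset.mem_Ioo.2 ⟨by omega, h2⟩)]
              rintro ⟨⟨-, h4⟩, -⟩
              have h5 : (0 : ℤ) ≤ ((-1 : SignType) : ℤ) * (p.2 + q) := h4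
              simp only [SignType.coe_neg_one] at h5
              omega
          · rintro ⟨⟨-, h4⟩, -⟩
            simp only [SignType.coe_one, one_mul] at h4
            omega
        · rw [if_pos, if_neg, add_zero]
          · rintro ⟨-, h4⟩
            omega
          · refine ⟨⟨hb, ?_⟩, trivial⟩
            simp only [SignType.coe_one, one_mul]
            exact h2
      · rw [if_neg (fun h => hb h.1.1), if_neg (fun h => hb h.1.1), add_zero,
          CC_of_notMem β f (fun h => hb h.1)]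
    rw [key]
    exact add_mem (Submodule.mem_sup_left ⟨_, ⟨_, rfl⟩, rfl⟩)
      (Submodule.mem_sup_right ⟨_, ⟨_, rfl⟩, rfl⟩)

theorem deg_model (β : ℤ) (hβ : β = 0 ∨ β = 1) : (AA k β).toFam.deg 1 = β := by
  have h := ind_model (k := k) β hβ 1 {0} (by simp) (fun b => (AA k β).toFam.subL b 1)
    (subL_iff β) ((AA k β).toFam.DL 1) (fun x y => rfl)
  rw [Finset.card_singleton] at h
  exact h.trans (by simp)

theorem DH_model (β : ℤ) (hβ : β = 0 ∨ β = 1) (q : ℤ) (hq : 1 ≤ q) :
    ind ((AA k β).toFam.DH 0 q) = β * (q - 1) := by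
  have h := ind_model (k := k) β hβ 0 (Finset.Ioo (-q) 0) (by simp)
    (fun b => (AA k β).toFam.sub b 0 q)
    (fun b => sub_iff β b q hq) ((AA k β).toFam.DH 0 q) (fun x y => rfl)
  rw [Int.card_Ioo] at h
  refine h.trans ?_
  congr 1
  have : (0 - -q - 1 : ℤ) = q - 1 := by ring
  rw [this, Int.toNat_of_nonneg (by omega)]

theorem E_model (β : ℤ) (hβ : β = 0 ∨ β = 1) (q : ℤ) (hq : 1 ≤ q) :
    (AA k β).toFam.E q = 0 := by
  unfold Fam.E
  rw [DH_model β hβ q hq, deg_model β hβ]
  ring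

/-- values for line bundles -/
theorem wVal (h1 : FamTwist) (h2 : FamStab) (h3 : MGood) (h4 : MToFam) : WVal := by
  refine wVal_of_model h1 h3 h4 ?_
  intro k _ β hβ
  refine ⟨deg_model β hβ, ?_⟩
  obtain ⟨q0, hq0⟩ := (h2 k _ (h3 k (AA k β))).1
  rw [← hq0 (max q0 1) (le_max_left _ _), E_model β hβ _ (le_max_right _ _)]

end

end Pool.Agent.W410.LG
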